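import Pool.Agent.MVD.StmtsLoc

/-!
Gathering the letters `c` of one block (row GTM of squad MVD, problem MP_23468a_al).
-/

namespace Pool.Agent.MVD.H14

open Pool.Agent.Helper14_MV Pool.Agent.Helper2_MV

variable {β : FIC}

theorem tr {a b c : List ℕ} (h : RR β a b) (h' : RR β b c) : RR β a c := β.trans h h'

/-- `S2` in all contexts -/
def Sw (β : FIC) : Prop := ∀ (p q : List ℕ) (u v : ℕ), u ∈ p → v ∈ q →
    RR β (p ++ u :: v :: q) (p ++ v :: u :: q)

theorem mv1 (h : Sw β) (c z : ℕ) : ∀ (n : ℕ) (p q : List ℕ),
    ((c ∈ p ∧ z ∈ q) ∨ (z ∈ p ∧ c ∈ q)) →
    RR β (p ++ (List.replicate n c ++ z :: q)) (p ++ (z :: (List.replicate n c ++ q))) := by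
  intro n
  induction n with
  | zero => intro p q _; exact RR.refl _
  | succ n ih =>
    intro p q hc
    have h1 := ih (p ++ [c]) q (by
      rcases hc with ⟨h1, h2⟩ | ⟨h1, h2⟩
      · left; exact ⟨by simp [h1], h2⟩
      · right; exact ⟨by simp [h1], h2⟩)
    have h2 : RR β (p ++ c :: z :: (List.replicate n c ++ q))
        (p ++ z :: c :: (List.replicate n c ++ q)) := by
      rcases hc with ⟨h3, h4⟩ | ⟨h3, h4⟩
      · exact h _ _ _ _ h3 (by simp [h4])
      · exact RR.symm (h _ _ _ _ h3 (by simp [h4]))
    have h3 := tr (by simpa using h1) h2
    simpa [List.replicate_succ] using h3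

theorem mvR (h : Sw β) (c : ℕ) : ∀ (g p q : List ℕ), c ∈ p → c ∈ q →
    (∀ v ∈ g, v ≠ c → 2 ≤ (p ++ (g ++ q)).count v) →
    RR β (p ++ c :: (g ++ q)) (p ++ (g ++ c :: q)) := by
  intro g
  induction g with
  | nil => intro p q _ _ _; exact RR.refl _
  | cons v g ih =>
    intro p q hp hq hm
    have h1 := ih (p ++ [v]) q (by simp [hp]) hq (by
      intro w hw hwc
      have := hm w (by simp [hw]) hwc
      simpa [List.count_append, List.count_cons, add_comm, add_left_comm, add_assoc] using this)
    have h2 : RR β (p ++ c :: v :: (g ++ q)) (p ++ v :: c :: (g ++ q)) := by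
      by_cases hvc : v = c
      · subst hvc
        exact RR.refl _
      · have h3 := hm v (by simp) hvc
        have h4 : v ∈ p ∨ v ∈ g ++ q := by
          by_contra hcon
          push Not at hcon
          have h5 : p.count v = 0 := List.count_eq_zero.2 hcon.1
          have h6 : (g ++ q).count v = 0 := List.count_eq_zero.2 hcon.2
          rw [List.count_append] at h6
          simp only [List.count_append, List.cons_append, List.count_cons_self] at h3
          omega
        rcases h4 with h4 | h4
        · exact RR.symm (h _ _ _ _ h4 (by simp [hq]))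
        · exact h _ _ _ _ hp h4
    have h3 := tr h2 (by simpa using h1)
    simpa using h3

theorem allL (h : Sw β) (c : ℕ) : ∀ (A p q : List ℕ), c ∈ p → c ∈ q →
    (∀ v ∈ A, v ≠ c → 2 ≤ (p ++ (A ++ q)).count v) →
    RR β (p ++ (A ++ q))
      (p ++ (List.replicate (A.count c) c ++ (A.filter (fun a => decide (a ≠ c)) ++ q))) := by
  intro A
  induction A with
  | nil => intro p q _ _ _; exact RR.refl _
  | cons v A ih =>
    intro p q hp hq hm
    have h1 := ih (p ++ [v]) q (by simp [hp]) hq (by
      intro w hw hwc
      have := hm w (by simp [hw]) hwc
      simpa [List.count_append, List.count_cons, add_comm, add_left_comm, add_assoc] using this)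
    by_cases hvc : v = c
    · subst hvc
      simpa [List.replicate_succ] using h1
    · have h3 := hm v (by simp) hvc
      have h4 : v ∈ p ∨ v ∈ A ++ q := by
        by_contra hcon
        push Not at hcon
        have h5 : p.count v = 0 := List.count_eq_zero.2 hcon.1
        have h6 : (A ++ q).count v = 0 := List.count_eq_zero.2 hcon.2
        rw [List.count_append] at h6
        simp only [List.count_append, List.cons_append, List.count_cons_self] at h3
        omega
      have h2 := mv1 h c v (A.count c) p (A.filter (fun a => decide (a ≠ c)) ++ q) (by
        rcases h4 with h4 | h4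
        · right; exact ⟨h4, by simp [hq]⟩
        · left
          refine ⟨hp, ?_⟩
          rcases List.mem_append.1 h4 with h5 | h5
          · exact List.mem_append.2 (Or.inl (List.mem_filter.2 ⟨h5, by simpa using hvc⟩))
          · exact List.mem_append.2 (Or.inr h5))
      have h5 := tr h1 (by simpa using RR.symm h2)
      have e1 : (v :: A).count c = A.count c := by
        rw [List.count_cons_of_ne hvc]
      have e2 : (v :: A).filter (fun a => decide (a ≠ c)) =
          v :: A.filter (fun a => decide (a ≠ c)) := by
        rw [List.filter_cons_of_pos (by simpa using hvc)]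
      rw [e1, e2]
      simpa using h5

theorem caseP (h : Sw β) (c : ℕ) : ∀ (A p q : List ℕ), c ∈ p →
    (∀ v ∈ A, v ≠ c → 2 ≤ (p ++ (A ++ q)).count v) →
    ∃ g1 g2, g1 ++ g2 = A.filter (fun a => decide (a ≠ c)) ∧
        RR β (p ++ (A ++ q)) (p ++ (g1 ++ (List.replicate (A.count c) c ++ (g2 ++ q)))) := by
  intro A
  induction A with
  | nil => intro p q _ _; exact ⟨[], [], rfl, RR.refl _⟩
  | cons v A ih =>
    intro p q hp hm
    obtain ⟨g1, g2, hg, h1⟩ := ih (p ++ [v]) q (by simp [hp]) (by
      intro w hw hwc
      have := hm w (by simp [hw]) hwc
      simpa [List.count_append, List.count_cons, add_comm, add_left_comm, add_assoc] using this)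
    by_cases hvc : v = c
    · subst hvc
      by_cases hA : v ∈ A
      · refine ⟨g1, g2, by simpa using hg, ?_⟩
        obtain ⟨n, hn⟩ : ∃ n, A.count v = n + 1 :=
          ⟨A.count v - 1, by have := List.count_pos_iff.2 hA; omega⟩
        have h2 := mvR h v g1 p (List.replicate (A.count v) v ++ (g2 ++ q)) hp
          (by simp [hn]) (by
            intro w hw hwc
            have hwA : w ∈ A := by
              have : w ∈ A.filter (fun a => decide (a ≠ v)) := by
                rw [← hg]; simp [hw]
              exact (List.mem_filter.1 this).1
            have h3 := hm w (by simp [hwA]) hwc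
            have h4 : A.count w = g1.count w + g2.count w := by
              rw [← List.count_append, hg, List.count_filter (by simpa using hwc)]
            simp only [List.count_append, List.cons_append, List.count_cons_of_ne (Ne.symm hwc)]
              at h3 ⊢
            omega)
        have h5 := tr (by simpa using h1) h2
        have e1 : (v :: A).count v = A.count v + 1 := List.count_cons_self
        rw [e1]
        simpa [List.replicate_succ] using h5
      · refine ⟨[], A, ?_, ?_⟩
        · have : A.filter (fun a => decide (a ≠ v)) = A := by
            rw [List.filter_eq_self]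
            intro a ha
            simp only [decide_eq_true_eq]
            rintro rfl
            exact hA ha
          simp only [List.nil_append]
          rw [List.filter_cons_of_neg (by simp), this]
        · have e1 : (v :: A).count v = 1 := by
            rw [List.count_cons_self, List.count_eq_zero.2 hA]
          rw [e1]
          exact RR.refl _
    · refine ⟨v :: g1, g2, ?_, ?_⟩
      · rw [List.filter_cons_of_pos (by simpa using hvc), ← hg]
        rfl
      · have e1 : (v :: A).count c = A.count c := by
          rw [List.count_cons_of_ne hvc]
        rw [e1]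
        simpa using h1

theorem caseQ (h : Sw β) (c : ℕ) : ∀ (A p q : List ℕ), c ∈ q →
    (∀ v ∈ A, v ≠ c → 2 ≤ (p ++ (A ++ q)).count v) →
    ∃ g1 g2, g1 ++ g2 = A.filter (fun a => decide (a ≠ c)) ∧
        RR β (p ++ (A ++ q)) (p ++ (g1 ++ (List.replicate (A.count c) c ++ (g2 ++ q)))) := by
  intro A
  induction A with
  | nil => intro p q _ _; exact ⟨[], [], rfl, RR.refl _⟩
  | cons v A ih =>
    intro p q hq hm
    have hm' : ∀ w ∈ A, w ≠ c → 2 ≤ (p ++ [v] ++ (A ++ q)).count w := by
      intro w hw hwc
      have := hm w (by simp [hw]) hwc
      simpa [List.count_append, List.count_cons, add_comm, add_left_comm, add_assoc] using this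
    by_cases hvc : v = c
    · subst hvc
      refine ⟨[], A.filter (fun a => decide (a ≠ v)), ?_, ?_⟩
      · simp only [List.nil_append]
        rw [List.filter_cons_of_neg (by simp)]
      · have h1 := allL h v A (p ++ [v]) q (by simp) hq hm'
        have e1 : (v :: A).count v = A.count v + 1 := List.count_cons_self
        rw [e1]
        simpa [List.replicate_succ] using h1
    · obtain ⟨g1, g2, hg, h1⟩ := ih (p ++ [v]) q hq hm'
      refine ⟨v :: g1, g2, ?_, ?_⟩
      · rw [List.filter_cons_of_pos (by simpa using hvc), ← hg]
        rfl
      · have e1 : (v :: A).count c = A.count c := by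
          rw [List.count_cons_of_ne hvc]
        rw [e1]
        simpa using h1

/-- the list has the form `c^i z c^j` -/
theorem one_form (c z : ℕ) : ∀ A : List ℕ, A.filter (fun a => decide (a ≠ c)) = [z] →
    ∃ i j, A = List.replicate i c ++ z :: List.replicate j c := by
  intro A
  induction A with
  | nil => intro h; simp at h
  | cons v A ih =>
    intro h
    by_cases hvc : v = c
    · subst hvc
      rw [List.filter_cons_of_neg (by simp)] at h
      obtain ⟨i, j, hA⟩ := ih h
      exact ⟨i + 1, j, by rw [hA]; simp [List.replicate_succ]⟩
    · rw [List.filter_cons_of_pos (by simpa using hvc)] at h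
      have h1 : v = z := (List.cons.inj h).1
      have h2 := (List.cons.inj h).2
      refine ⟨0, A.length, ?_⟩
      have h3 : A = List.replicate A.length c := by
        rw [List.eq_replicate_iff]
        refine ⟨rfl, fun b hb => ?_⟩
        have := List.filter_eq_nil_iff.1 h2 b hb
        simpa using this
      rw [h1]
      simp only [List.replicate_zero, List.nil_append]
      exact congrArg _ h3

theorem gtm (h : CtxStmt) : GtmStmt := by
  intro β hs2 p A q c hm hc
  have hsw : Sw β := (h β).2.1 hs2
  by_cases hp : c ∈ p
  · exact caseP hsw c A p q hp hm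
  by_cases hq : c ∈ q
  · exact caseQ hsw c A p q hq hm
  have hl : (A.filter (fun a => decide (a ≠ c))).length ≤ 1 := by
    rcases hc with h1 | h1 | h1
    · exact absurd h1 hp
    · exact absurd h1 hq
    · exact h1
  match hf : A.filter (fun a => decide (a ≠ c)), hl with
  | [], _ =>
    refine ⟨[], [], rfl, ?_⟩
    have h1 : A = List.replicate (A.count c) c := by
      have h2 : A = List.replicate A.length c := by
        rw [List.eq_replicate_iff]
        refine ⟨rfl, fun b hb => ?_⟩
        have := List.filter_eq_nil_iff.1 hf b hb
        simpa using this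
      have h3 : A.count c = A.length := by
        conv_lhs => rw [h2]
        rw [List.count_replicate_self]
      rw [h3]
      exact h2
    have h2 : p ++ (A ++ q) = p ++ (List.replicate (A.count c) c ++ q) :=
      congrArg (fun l => p ++ (l ++ q)) h1
    rw [List.nil_append, List.nil_append, ← h2]
    exact RR.refl _
  | [z], _ =>
    obtain ⟨i, j, hA⟩ := one_form c z A hf
    have hzc : z ≠ c := by
      have : z ∈ A.filter (fun a => decide (a ≠ c)) := by rw [hf]; simp
      simpa using (List.mem_filter.1 this).2
    have hcnt : A.count c = i + j := by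
      rw [hA, List.count_append, List.count_replicate_self, List.count_cons_of_ne hzc,
        List.count_replicate_self]
    have hz : z ∈ p ∨ z ∈ q := by
      by_contra hcon
      push Not at hcon
      have h3 := hm z (by rw [hA]; simp) hzc
      rw [List.count_append, List.count_append, List.count_eq_zero.2 hcon.1,
        List.count_eq_zero.2 hcon.2, hA, List.count_append, List.count_cons_self,
        List.count_replicate, List.count_replicate] at h3
      simp [Ne.symm hzc] at h3
    rw [hcnt, hA]
    rcases hz with hz | hz
    · rcases Nat.eq_zero_or_pos j with hj | hj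
      · subst hj
        refine ⟨[], [z], rfl, ?_⟩
        simpa using RR.refl (β := β) (p ++ (List.replicate i c ++ z :: q))
      · refine ⟨[z], [], rfl, ?_⟩
        have h1 := mv1 hsw c z i p (List.replicate j c ++ q) (Or.inr ⟨hz, by
          simp [hj.ne']⟩)
        have e1 : p ++ ((List.replicate i c ++ z :: List.replicate j c) ++ q) =
            p ++ (List.replicate i c ++ z :: (List.replicate j c ++ q)) := by simp
        have e2 : p ++ ([z] ++ (List.replicate (i + j) c ++ ([] ++ q))) =
            p ++ (z :: (List.replicate i c ++ (List.replicate j c ++ q))) := by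
          rw [List.replicate_add, List.append_assoc]; rfl
        rw [e1, e2]
        exact h1
    · rcases Nat.eq_zero_or_pos i with hi | hi
      · subst hi
        refine ⟨[z], [], rfl, ?_⟩
        simpa using RR.refl (β := β) (p ++ z :: (List.replicate j c ++ q))
      · refine ⟨[], [z], rfl, ?_⟩
        have h1 := mv1 hsw c z j (p ++ List.replicate i c) q (Or.inl ⟨by
          simp [hi.ne'], hz⟩)
        have e1 : p ++ ((List.replicate i c ++ z :: List.replicate j c) ++ q) =
            p ++ List.replicate i c ++ (z :: (List.replicate j c ++ q)) := by simp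
        have e2 : p ++ ([] ++ (List.replicate (i + j) c ++ ([z] ++ q))) =
            p ++ List.replicate i c ++ (List.replicate j c ++ z :: q) := by
          rw [List.replicate_add]
          simp only [List.append_assoc, List.nil_append, List.cons_append]
        rw [e1, e2]
        exact RR.symm h1
  | _ :: _ :: _, hl => simp at hl

end Pool.Agent.MVD.H14
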